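import Pool.Agent.V11259.EMn

/-!
# The family of even matrix grammars in mode 1

Let `EM₁` be the family of all languages generated in mode 1 by even matrix grammars of any degree,
and `M` the family of matrix languages, that is the family of mode 0 languages of degree two.
Then `M` is a proper subfamily of `EM₁`, and the context-sensitive language of the words
`c ^ (2 ^ k)` does not belong to `EM₁`. So `EM₁` lies strictly between `M` and the recursively
enumerable languages, and differs from the context-sensitive ones.
-/

namespace Pool.Agent.Results.MP_99d1ae_lc.Location

open Pool.Agent.V11259.EM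

theorem result (T : Type) [Nontrivial T] :
    Family T false ⊂ FamilyN T true ∧
      ∀ c : T, {w : List T | ∃ k : ℕ, w = List.replicate (2 ^ k) c} ∉ FamilyN T true := by
  refine ⟨⟨(family_subset T).trans (family_two T true), fun h => ?_⟩, powers_not_mem⟩
  obtain ⟨c, z, hcz⟩ := exists_pair_ne T
  obtain ⟨N₁, N₂, h1, h2, G, hG⟩ := h (a := Lang (dbl c z) true) (family_two T true
    ⟨P₁, P₂, inferInstance, inferInstance, dbl c z, rfl⟩)
  exact not_zero hcz G hG

end Pool.Agent.Results.MP_99d1ae_lc.Location
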